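import Mathlib

set_option autoImplicit false

/-!
Evolution systems of geometric type with polynomial coefficients: the definitions.  They are those
of the library result `MP_3301e6_mp.TorsionCurvature`.
-/

namespace Pool.Agent.KS6_75.TC

open MvPolynomial

/-- Differential polynomials in `u^0, ..., u^{N-1}`; `X (i, k)` is the `k`-th `x`-derivative of
`u^i`. -/
abbrev Jet (N : ℕ) := MvPolynomial (Fin N × ℕ) ℝ

/-- The total `x`-derivative. -/
noncomputable def Dx (N : ℕ) : Derivation ℝ (Jet N) (Jet N) :=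
  mkDerivation ℝ (fun p => X (p.1, p.2 + 1))

/-- The time derivative along the evolution system `u^i_t = K i`. -/
noncomputable def ev {N : ℕ} (K : Fin N → Jet N) : Derivation ℝ (Jet N) (Jet N) :=
  mkDerivation ℝ (fun p => (Dx N)^[p.2] (K p.1))

/-- The flows `u_t = K` and `u_τ = L` commute. -/
def FlowsCommute {N : ℕ} (K L : Fin N → Jet N) : Prop := ∀ i, ev K (L i) = ev L (K i)

/-- A function of `u`, seen as a function on jets. -/
noncomputable def emb {N : ℕ} (p : MvPolynomial (Fin N) ℝ) : Jet N := rename (fun i => (i, 0)) p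

/-- The right-hand side of the third-order system with coefficients `α`, `β`. -/
noncomputable def system {N : ℕ} (α : Fin N → Fin N → Fin N → MvPolynomial (Fin N) ℝ)
    (β : Fin N → Fin N → Fin N → Fin N → MvPolynomial (Fin N) ℝ) (i : Fin N) : Jet N :=
  X (i, 3) + 3 * ∑ j, ∑ k, emb (α i j k) * X (j, 1) * X (k, 2)
    + ∑ j, ∑ k, ∑ m, emb (pderiv j (α i k m) + 2 * ∑ r, α i j r * α r k m
        - ∑ r, α i r j * α r k m + β i j k m) * X (j, 1) * X (k, 1) * X (m, 1)

/-- An infinite hierarchy of pairwise commuting higher symmetries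
`u_τ = u_n + G(u, u_1, ..., u_{n-1})` of arbitrarily high order `n`. -/
def Integrable {N : ℕ} (K : Fin N → Jet N) : Prop :=
  ∃ (n : ℕ → ℕ) (G : ℕ → Fin N → Jet N), StrictMono n ∧
    (∀ k i, G k i ∈ supported ℝ {p : Fin N × ℕ | p.2 < n k}) ∧
    (∀ k, FlowsCommute K (fun i => X (i, n k) + G k i)) ∧
    ∀ k l, FlowsCommute (fun i => X (i, n k) + G k i) (fun i => X (i, n l) + G l i)

/-- The torsion of the connection `Γ^i_{jk} = α^i_{jk}`. -/
noncomputable def torsion {N : ℕ} (α : Fin N → Fin N → Fin N → MvPolynomial (Fin N) ℝ)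
    (i j k : Fin N) : MvPolynomial (Fin N) ℝ := α i j k - α i k j

/-- The curvature `R^i_{jkl}` of the connection `Γ^i_{jk} = α^i_{jk}` (the last lower index is the
direction of differentiation: `∇_k ∂_j = Γ^i_{jk} ∂_i`). -/
noncomputable def curvature {N : ℕ} (α : Fin N → Fin N → Fin N → MvPolynomial (Fin N) ℝ)
    (i j k l : Fin N) : MvPolynomial (Fin N) ℝ :=
  pderiv k (α i j l) - pderiv l (α i j k) + ∑ s, (α i s k * α s j l - α i s l * α s j k)

end Pool.Agent.KS6_75.TC
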