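import Mathlib
import Pool.Agent.KS6_75.TC.Defs

set_option autoImplicit false

/-!
Two hierarchies of commuting flows with two coupled components.
-/

namespace Pool.Agent.KS6_75.TC

open MvPolynomial Finset

/-! ### Two identities for alternating sums -/

theorem bil {R : Type} [CommRing R] (a b : ℕ → R) {n m : ℕ} (hn : Odd n) (hm : Odd m) :
    ∑ j ∈ range n, (-1) ^ j * (a (j + m) * b (n - j) + a j * b (n - j + m)) =
    ∑ j ∈ range m, (-1) ^ j * (a (j + n) * b (m - j) + a j * b (m - j + n)) := by
  have key : ∀ n m : ℕ, Odd m →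
      ∑ j ∈ range n, (-1) ^ j * (a (j + m) * b (n - j) + a j * b (n - j + m)) =
      ∑ j ∈ range n, (-1) ^ j * (a j * b (n + m - j)) -
        ∑ j ∈ range n, (-1) ^ (m + j) * (a (m + j) * b (n + m - (m + j))) := by
    intro n m hm
    rw [← sum_sub_distrib]
    refine sum_congr rfl fun j hj => ?_
    have hj' : j < n := mem_range.mp hj
    rw [show n - j + m = n + m - j by omega, show n + m - (m + j) = n - j by omega,
      pow_add, hm.neg_one_pow, add_comm j m]
    ring
  rw [key n m hm, key m n hn]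
  have e1 := Finset.sum_range_add (fun k => (-1 : R) ^ k * (a k * b (n + m - k))) n m
  have e2 := Finset.sum_range_add (fun k => (-1 : R) ^ k * (a k * b (n + m - k))) m n
  rw [add_comm m n] at e2
  rw [e1] at e2
  rw [add_comm m n]
  linear_combination e2

theorem tel {R : Type} [CommRing R] (a b : ℕ → R) {m : ℕ} (hm : Odd m) :
    ∑ j ∈ range m, (-1) ^ j * (a (j + 1) * b (m - j) + a j * b (m - j + 1)) =
      a m * b 1 + a 0 * b (m + 1) := by
  rw [bil a b hm odd_one]
  simp [add_comm 1 m]

/-! ### The derivations -/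

variable {N : ℕ}

theorem Dx_X (i : Fin N) (k : ℕ) : Dx N (X (i, k)) = X (i, k + 1) := by
  simp [Dx, mkDerivation_X]

theorem Dx_iter (i : Fin N) (k l : ℕ) : (Dx N)^[l] (X (i, k)) = X (i, k + l) := by
  induction l with
  | zero => simp
  | succ l ih => rw [Function.iterate_succ_apply', ih, Dx_X, add_assoc]

theorem ev_X (K : Fin N → Jet N) (i : Fin N) (k : ℕ) :
    ev K (X (i, k)) = (Dx N)^[k] (K i) := by
  simp [ev, mkDerivation_X]

theorem ev_Dx (K : Fin N → Jet N) (f : Jet N) : ev K (Dx N f) = Dx N (ev K f) := by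
  have h : ⁅ev K, Dx N⁆ = 0 := by
    apply MvPolynomial.derivation_ext
    rintro ⟨i, k⟩
    rw [Derivation.commutator_apply, Dx_X, ev_X, ev_X, Function.iterate_succ_apply', sub_self]
    rfl
  have h2 := congrArg (fun d : Derivation ℝ (Jet N) (Jet N) => d f) h
  simp only [Derivation.commutator_apply, Derivation.coe_zero, Pi.zero_apply] at h2
  exact sub_eq_zero.mp h2

/-! ### The flows of the first component -/

/-- `e^{-y} D^j e^y`, where `y = u^p`. -/
noncomputable def B (p : Fin N) : ℕ → Jet N
  | 0 => 1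
  | j + 1 => Dx N (B p j) + X (p, 1) * B p j

theorem B_one (p : Fin N) : B p 1 = X (p, 1) := by
  simp [B]

theorem Dx_B (p : Fin N) (j : ℕ) : Dx N (B p j) = B p (j + 1) - X (p, 1) * B p j := by
  simp [B]

theorem ev_B {K : Fin N → Jet N} {p : Fin N} {m : ℕ} (hK : K p = B p m) (j : ℕ) :
    ev K (B p j) = B p (j + m) - B p m * B p j := by
  induction j with
  | zero => simp [B]
  | succ j ih =>
    have h1 : ev K (X (p, 1)) = Dx N (B p m) := by rw [ev_X, hK]; rfl
    rw [B, map_add, ev_Dx, ih, Derivation.leibniz, h1, ih, show j + 1 + m = (j + m) + 1 by ring,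
      map_sub, Derivation.leibniz, Dx_B, Dx_B, Dx_B]
    simp only [smul_eq_mul]
    ring

end Pool.Agent.KS6_75.TC
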