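import Mathlib
import Pool.Agent.KS6_75.TC.Flows

set_option autoImplicit false

/-!
Two hierarchies of commuting flows with two coupled components.
-/

namespace Pool.Agent.KS6_75.TC

open MvPolynomial Finset

variable {N : ℕ}

/-! ### The first hierarchy -/

/-- `e^y D^(i-1) (e^{-y} v_1)` for `i ≥ 1`. -/
noncomputable def Cc (p q : Fin N) : ℕ → Jet N
  | 0 => 0
  | 1 => X (q, 1)
  | i + 2 => Dx N (Cc p q (i + 1)) - X (p, 1) * Cc p q (i + 1)

theorem Dx_Cc (p q : Fin N) (i : ℕ) (hi : 1 ≤ i) :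
    Dx N (Cc p q i) = Cc p q (i + 1) + X (p, 1) * Cc p q i := by
  obtain ⟨i, rfl⟩ := Nat.exists_eq_add_of_le' hi
  simp [Cc]

/-- the second component of the `n`-th flow of the first hierarchy -/
noncomputable def F1 (p q : Fin N) (n : ℕ) : Jet N :=
  ∑ j ∈ range n, (-1) ^ j * (B p j * Cc p q (n - j))

theorem Dx_neg_one_pow (j : ℕ) : Dx N ((-1) ^ j) = 0 := by
  rcases neg_one_pow_eq_or (Jet N) j with h | h <;> rw [h] <;> simp

theorem ev_neg_one_pow (K : Fin N → Jet N) (j : ℕ) : ev K ((-1) ^ j) = 0 := by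
  rcases neg_one_pow_eq_or (Jet N) j with h | h <;> rw [h] <;> simp

theorem Dx_F1 (p q : Fin N) {m : ℕ} (hm : Odd m) :
    Dx N (F1 p q m) = Cc p q (m + 1) + B p m * Cc p q 1 := by
  have h := tel (B p) (Cc p q) hm
  rw [F1, map_sum]
  rw [show Cc p q (m + 1) + B p m * Cc p q 1 = B p m * Cc p q 1 + B p 0 * Cc p q (m + 1) by
    rw [B]; ring, ← h]
  refine sum_congr rfl fun j hj => ?_
  have hj' : j < m := mem_range.mp hj
  rw [Derivation.leibniz, Dx_neg_one_pow, Derivation.leibniz, Dx_B, Dx_Cc p q (m - j) (by omega)]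
  simp only [smul_eq_mul]
  ring

theorem ev_Cc {K : Fin N → Jet N} {p q : Fin N} {m : ℕ} (hm : Odd m) (hK : K p = B p m)
    (hK2 : K q = F1 p q m) (i : ℕ) (hi : 1 ≤ i) :
    ev K (Cc p q i) = Cc p q (i + m) + B p m * Cc p q i := by
  induction i, hi using Nat.le_induction with
  | base =>
    have h1 : ev K (Cc p q 1) = Dx N (F1 p q m) := by rw [Cc, ev_X, hK2]; rfl
    rw [h1, Dx_F1 p q hm, add_comm 1 m]
  | succ i hi ih =>
    have h1 : ev K (X (p, 1)) = Dx N (B p m) := by rw [ev_X, hK]; rfl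
    have h2 : Cc p q (i + 1) = Dx N (Cc p q i) - X (p, 1) * Cc p q i := by
      rw [Dx_Cc p q i hi]; ring
    have h3 : Cc p q (i + 1 + m) = Dx N (Cc p q (i + m)) - X (p, 1) * Cc p q (i + m) := by
      rw [Dx_Cc p q (i + m) (by omega), show i + 1 + m = i + m + 1 by ring]; ring
    rw [h3, h2, map_sub, ev_Dx, ih, Derivation.leibniz, h1, ih, map_add, Derivation.leibniz]
    simp only [smul_eq_mul]
    ring

theorem comm_F1 {K L : Fin N → Jet N} {p q : Fin N} {n m : ℕ} (hn : Odd n) (hm : Odd m)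
    (hK : K p = B p m) (hK2 : K q = F1 p q m) (hL : L p = B p n) (hL2 : L q = F1 p q n) :
    ev K (F1 p q n) = ev L (F1 p q m) := by
  have h : ∀ {K : Fin N → Jet N} {n m : ℕ}, Odd m → K p = B p m → K q = F1 p q m →
      ev K (F1 p q n) = ∑ j ∈ range n, (-1) ^ j *
        (B p (j + m) * Cc p q (n - j) + B p j * Cc p q (n - j + m)) := by
    intro K n m hm hK hK2
    rw [F1, map_sum]
    refine sum_congr rfl fun j hj => ?_
    have hj' : j < n := mem_range.mp hj
    rw [Derivation.leibniz, ev_neg_one_pow, Derivation.leibniz, ev_B hK,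
      ev_Cc hm hK hK2 (n - j) (by omega)]
    simp only [smul_eq_mul]
    ring
  rw [h hm hK hK2, h hn hL hL2]
  exact bil _ _ hn hm

/-! ### The second hierarchy -/

/-- `D^j w - (e^{-y} D^j e^y) w` for a potential `w` with `(e^y v)_1 = e^y w_1 - e^y y_1 w`. -/
noncomputable def W (p q : Fin N) : ℕ → Jet N
  | 0 => 0
  | j + 1 => Dx N (W p q j) + B p j * (X (q, 1) + X (p, 1) * X (q, 0))

theorem W_one (p q : Fin N) : W p q 1 = X (q, 1) + X (p, 1) * X (q, 0) := by
  simp [W, B]

theorem Dx_W (p q : Fin N) (j : ℕ) : Dx N (W p q j) = W p q (j + 1) - B p j * W p q 1 := by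
  rw [W_one]
  simp [W]

/-- the second component of the `n`-th flow of the second hierarchy -/
noncomputable def F2 (p q : Fin N) (n : ℕ) : Jet N :=
  -(X (q, 0) * B p n) + ∑ j ∈ range n, (-1) ^ j * (B p j * W p q (n - j) - W p q j * B p (n - j))

theorem Dx_F2 (p q : Fin N) {m : ℕ} (hm : Odd m) :
    Dx N (F2 p q m) + X (p, 1) * F2 p q m + X (q, 0) * Dx N (B p m) =
      W p q (m + 1) - B p 1 * W p q m := by
  have h1 := tel (B p) (W p q) hm
  have h2 := tel (W p q) (B p) hm
  have h3 : Dx N (∑ j ∈ range m, (-1) ^ j * (B p j * W p q (m - j) - W p q j * B p (m - j))) +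
      X (p, 1) * ∑ j ∈ range m, (-1) ^ j * (B p j * W p q (m - j) - W p q j * B p (m - j)) =
      (B p m * W p q 1 + B p 0 * W p q (m + 1)) - (W p q m * B p 1 + W p q 0 * B p (m + 1)) := by
    rw [← h1, ← h2, map_sum, mul_sum, ← sum_add_distrib, ← sum_sub_distrib]
    refine sum_congr rfl fun j hj => ?_
    have hj' : j < m := mem_range.mp hj
    rw [Derivation.leibniz, Dx_neg_one_pow, map_sub, Derivation.leibniz, Derivation.leibniz,
      Dx_B, Dx_B, Dx_W, Dx_W, show m - j + 1 = m + 1 - j by omega]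
    simp only [smul_eq_mul]
    ring
  rw [F2, map_add, map_neg, Derivation.leibniz, Dx_X]
  simp only [smul_eq_mul]
  have e0 : B p 0 = 1 := rfl
  have e1 : W p q 0 = 0 := rfl
  rw [e0, e1] at h3
  have e2 := W_one p q
  linear_combination h3 + B p m * e2

theorem ev_W {K : Fin N → Jet N} {p q : Fin N} {m : ℕ} (hm : Odd m) (hK : K p = B p m)
    (hK2 : K q = F2 p q m) (j : ℕ) :
    ev K (W p q j) = W p q (j + m) - B p j * W p q m := by
  have h0 : ev K (W p q 1) = W p q (m + 1) - B p 1 * W p q m := by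
    have h1 : ev K (X (p, 1)) = Dx N (B p m) := by rw [ev_X, hK]; rfl
    have h2 : ev K (X (q, 1)) = Dx N (F2 p q m) := by rw [ev_X, hK2]; rfl
    have h3 : ev K (X (q, 0)) = F2 p q m := by rw [ev_X, hK2]; rfl
    rw [W_one, map_add, Derivation.leibniz, h1, h2, h3, ← Dx_F2 p q hm]
    simp only [smul_eq_mul]
    ring
  induction j with
  | zero => simp [W, B]
  | succ j ih =>
    have h2 : W p q (j + 1) = Dx N (W p q j) + B p j * W p q 1 := by rw [Dx_W]; ring
    have h3 : W p q (j + 1 + m) = Dx N (W p q (j + m)) + B p (j + m) * W p q 1 := by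
      rw [Dx_W, show j + 1 + m = j + m + 1 by ring]; ring
    rw [h3, h2, map_add, ev_Dx, ih, Derivation.leibniz, ev_B hK, h0, map_sub, Derivation.leibniz,
      Dx_B, Dx_W p q m, B_one]
    simp only [smul_eq_mul]
    ring

theorem comm_F2 {K L : Fin N → Jet N} {p q : Fin N} {n m : ℕ} (hn : Odd n) (hm : Odd m)
    (hK : K p = B p m) (hK2 : K q = F2 p q m) (hL : L p = B p n) (hL2 : L q = F2 p q n) :
    ev K (F2 p q n) = ev L (F2 p q m) := by
  have h : ∀ {K : Fin N → Jet N} {n m : ℕ}, Odd m → K p = B p m → K q = F2 p q m →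
      ev K (F2 p q n) = - (F2 p q m * B p n) - B p m * F2 p q n - X (q, 0) * B p (n + m) +
        ((∑ j ∈ range n, (-1) ^ j * (B p (j + m) * W p q (n - j) + B p j * W p q (n - j + m))) -
          ∑ j ∈ range n, (-1) ^ j * (W p q (j + m) * B p (n - j) + W p q j * B p (n - j + m))) := by
    intro K n m hm hK hK2
    have h1 : ev K (X (q, 0)) = F2 p q m := by rw [ev_X, hK2]; rfl
    have h2 : ev K (∑ j ∈ range n, (-1) ^ j * (B p j * W p q (n - j) - W p q j * B p (n - j))) =
        ((∑ j ∈ range n, (-1) ^ j * (B p (j + m) * W p q (n - j) + B p j * W p q (n - j + m))) -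
          ∑ j ∈ range n, (-1) ^ j * (W p q (j + m) * B p (n - j) + W p q j * B p (n - j + m))) -
        B p m * ∑ j ∈ range n, (-1) ^ j * (B p j * W p q (n - j) - W p q j * B p (n - j)) := by
      rw [map_sum, mul_sum, ← sum_sub_distrib, ← sum_sub_distrib]
      refine sum_congr rfl fun j hj => ?_
      rw [Derivation.leibniz, ev_neg_one_pow, map_sub, Derivation.leibniz, Derivation.leibniz,
        ev_B hK, ev_B hK, ev_W hm hK hK2, ev_W hm hK hK2]
      simp only [smul_eq_mul]
      ring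
    rw [F2, map_add, map_neg, Derivation.leibniz, h1, h2, ev_B hK]
    simp only [smul_eq_mul]
    rw [F2]
    ring
  rw [h hm hK hK2, h hn hL hL2, bil (B p) (W p q) hn hm, bil (W p q) (B p) hn hm, add_comm m n]
  ring

end Pool.Agent.KS6_75.TC
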