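import Mathlib
import Pool.Agent.KS6_75.TC.Two

set_option autoImplicit false

/-!
The two hierarchies have the required form, and their third flows are systems of geometric type.
-/

namespace Pool.Agent.KS6_75.TC

open MvPolynomial Finset

variable {N : ℕ}

/-! ### The form of the flows -/

/-- the differential polynomials in the derivatives of order less than `n` -/
noncomputable abbrev Low (N n : ℕ) : Subalgebra ℝ (Jet N) :=
  supported ℝ {p : Fin N × ℕ | p.2 < n}

theorem Low_mono {a b : ℕ} (h : a ≤ b) {f : Jet N} (hf : f ∈ Low N a) : f ∈ Low N b :=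
  supported_mono (fun _ hp => lt_of_lt_of_le hp h) hf

theorem X_low (i : Fin N) {k n : ℕ} (h : k < n) : X (i, k) ∈ Low N n :=
  X_mem_supported.mpr h

theorem Dx_low {n : ℕ} {f : Jet N} (hf : f ∈ Low N n) : Dx N f ∈ Low N (n + 1) := by
  have h : ∀ g ∈ Algebra.adjoin ℝ ((X : Fin N × ℕ → Jet N) '' {p | p.2 < n}),
      Dx N g ∈ Low N (n + 1) := by
    intro g hg
    have hle : ∀ g ∈ Algebra.adjoin ℝ ((X : Fin N × ℕ → Jet N) '' {p | p.2 < n}),
        g ∈ Low N (n + 1) := fun g hg => Low_mono (Nat.le_succ n) hg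
    induction hg using Algebra.adjoin_induction with
    | mem x hx =>
      obtain ⟨⟨i, k⟩, hk, rfl⟩ := hx
      rw [Dx_X]
      exact X_low i (Nat.succ_lt_succ hk)
    | algebraMap r => rw [Derivation.map_algebraMap]; exact Subalgebra.zero_mem _
    | add x y _ _ hx hy => rw [map_add]; exact Subalgebra.add_mem _ hx hy
    | mul x y hx' hy' hx hy =>
      rw [Derivation.leibniz]
      exact Subalgebra.add_mem _ (Subalgebra.mul_mem _ (hle _ hx') hy)
        (Subalgebra.mul_mem _ (hle _ hy') hx)
  exact h f hf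

theorem B_form (p : Fin N) (n : ℕ) (hn : 1 ≤ n) : B p n - X (p, n) ∈ Low N n := by
  induction n, hn using Nat.le_induction with
  | base => rw [B_one, sub_self]; exact Subalgebra.zero_mem _
  | succ n hn ih =>
    have h1 : B p n ∈ Low N (n + 1) := by
      have h2 := Subalgebra.add_mem _ (Low_mono (Nat.le_succ n) ih) (X_low p (Nat.lt_succ_self n))
      rwa [sub_add_cancel] at h2
    have h3 : B p (n + 1) - X (p, n + 1) = Dx N (B p n - X (p, n)) + X (p, 1) * B p n := by
      rw [map_sub, Dx_B, Dx_X]; ring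
    rw [h3]
    exact Subalgebra.add_mem _ (Dx_low ih) (Subalgebra.mul_mem _ (X_low p (by omega)) h1)

theorem B_low (p : Fin N) (n : ℕ) : B p n ∈ Low N (n + 1) := by
  rcases Nat.eq_zero_or_pos n with rfl | hn
  · exact Subalgebra.one_mem _
  · have h2 := Subalgebra.add_mem _ (Low_mono (Nat.le_succ n) (B_form p n hn))
      (X_low p (Nat.lt_succ_self n))
    rwa [sub_add_cancel] at h2

theorem Cc_form (p q : Fin N) (n : ℕ) (hn : 1 ≤ n) : Cc p q n - X (q, n) ∈ Low N n := by
  induction n, hn using Nat.le_induction with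
  | base => rw [Cc, sub_self]; exact Subalgebra.zero_mem _
  | succ n hn ih =>
    have h1 : Cc p q n ∈ Low N (n + 1) := by
      have h2 := Subalgebra.add_mem _ (Low_mono (Nat.le_succ n) ih) (X_low q (Nat.lt_succ_self n))
      rwa [sub_add_cancel] at h2
    have h3 : Cc p q (n + 1) - X (q, n + 1) =
        Dx N (Cc p q n - X (q, n)) - X (p, 1) * Cc p q n := by
      rw [map_sub, Dx_Cc p q n hn, Dx_X]; ring
    rw [h3]
    exact Subalgebra.sub_mem _ (Dx_low ih) (Subalgebra.mul_mem _ (X_low p (by omega)) h1)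

theorem Cc_low (p q : Fin N) (n : ℕ) (hn : 1 ≤ n) : Cc p q n ∈ Low N (n + 1) := by
  have h2 := Subalgebra.add_mem _ (Low_mono (Nat.le_succ n) (Cc_form p q n hn))
    (X_low q (Nat.lt_succ_self n))
  rwa [sub_add_cancel] at h2

theorem sgn_low (j n : ℕ) : ((-1) ^ j : Jet N) ∈ Low N n :=
  Subalgebra.pow_mem _ (Subalgebra.neg_mem _ (Subalgebra.one_mem _)) _

theorem F1_form (p q : Fin N) (n : ℕ) (hn : 1 ≤ n) : F1 p q n - X (q, n) ∈ Low N n := by
  obtain ⟨n, rfl⟩ := Nat.exists_eq_add_of_le' hn
  have h : F1 p q (n + 1) - X (q, n + 1) =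
      (∑ j ∈ range n, (-1) ^ (j + 1) * (B p (j + 1) * Cc p q (n - j))) +
        (Cc p q (n + 1) - X (q, n + 1)) := by
    rw [F1, sum_range_succ']
    simp only [Nat.add_sub_add_right, Nat.sub_zero, pow_zero, one_mul]
    rw [show B p 0 = 1 from rfl]
    ring
  rw [h]
  refine Subalgebra.add_mem _ (Subalgebra.sum_mem _ fun j hj => ?_) (Cc_form p q _ (by omega))
  have hj' : j < n := mem_range.mp hj
  exact Subalgebra.mul_mem _ (sgn_low _ _) (Subalgebra.mul_mem _
    (Low_mono (by omega) (B_low p (j + 1))) (Low_mono (by omega) (Cc_low p q (n - j) (by omega))))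

theorem W_form (p q : Fin N) (n : ℕ) (hn : 1 ≤ n) :
    W p q n - X (q, 0) * B p n - X (q, n) ∈ Low N n := by
  induction n, hn using Nat.le_induction with
  | base =>
    rw [W_one, B_one, show X (q, 1) + X (p, 1) * X (q, 0) - X (q, 0) * X (p, 1) - X (q, 1) =
      (0 : Jet N) by ring]
    exact Subalgebra.zero_mem _
  | succ n hn ih =>
    have h3 : W p q (n + 1) - X (q, 0) * B p (n + 1) - X (q, n + 1) =
        Dx N (W p q n - X (q, 0) * B p n - X (q, n)) + (X (q, 1) * B p n + X (q, 1) * B p n) := by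
      rw [map_sub, map_sub, Derivation.leibniz, Dx_B, Dx_X, Dx_X, Dx_W, W_one]
      simp only [smul_eq_mul]
      ring
    rw [h3]
    have h1 : X (q, 1) * B p n ∈ Low N (n + 1) :=
      Subalgebra.mul_mem _ (X_low q (by omega)) (B_low p n)
    exact Subalgebra.add_mem _ (Dx_low ih) (Subalgebra.add_mem _ h1 h1)

theorem W_low (p q : Fin N) (n : ℕ) : W p q n ∈ Low N (n + 1) := by
  rcases Nat.eq_zero_or_pos n with rfl | hn
  · exact Subalgebra.zero_mem _
  · have h2 := Subalgebra.add_mem _ (Subalgebra.add_mem _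
      (Low_mono (Nat.le_succ n) (W_form p q n hn)) (X_low q (Nat.lt_succ_self n)))
      (Subalgebra.mul_mem _ (X_low q (Nat.succ_pos n)) (B_low p n))
    rwa [sub_add_cancel, sub_add_cancel] at h2

theorem F2_form (p q : Fin N) (n : ℕ) (hn : 1 ≤ n) : F2 p q n - X (q, n) ∈ Low N n := by
  obtain ⟨n, rfl⟩ := Nat.exists_eq_add_of_le' hn
  have h : F2 p q (n + 1) - X (q, n + 1) =
      (∑ j ∈ range n, (-1) ^ (j + 1) * (B p (j + 1) * W p q (n - j) -
        W p q (j + 1) * B p (n - j))) +
        (W p q (n + 1) - X (q, 0) * B p (n + 1) - X (q, n + 1)) := by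
    rw [F2, sum_range_succ']
    simp only [Nat.add_sub_add_right, Nat.sub_zero, pow_zero, one_mul]
    rw [show B p 0 = 1 from rfl, show W p q 0 = 0 from rfl]
    ring
  rw [h]
  refine Subalgebra.add_mem _ (Subalgebra.sum_mem _ fun j hj => ?_) (W_form p q _ (by omega))
  have hj' : j < n := mem_range.mp hj
  exact Subalgebra.mul_mem _ (sgn_low _ _) (Subalgebra.sub_mem _ (Subalgebra.mul_mem _
    (Low_mono (by omega) (B_low p (j + 1))) (Low_mono (by omega) (W_low p q (n - j))))
    (Subalgebra.mul_mem _ (Low_mono (by omega) (W_low p q (j + 1)))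
    (Low_mono (by omega) (B_low p (n - j)))))

/-! ### The hierarchies -/

/-- the `n`-th flow: `B` for the component `p`, `F` for the component `q`, linear otherwise -/
noncomputable def flow (F : Fin N → Fin N → ℕ → Jet N) (p q : Fin N) (n : ℕ) (i : Fin N) : Jet N :=
  if i = p then B p n else if i = q then F p q n else X (i, n)

theorem flow_comm (F : Fin N → Fin N → ℕ → Jet N) {p q : Fin N} (hpq : p ≠ q)
    (hF : ∀ {K L : Fin N → Jet N} {n m : ℕ}, Odd n → Odd m → K p = B p m → K q = F p q m →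
      L p = B p n → L q = F p q n → ev K (F p q n) = ev L (F p q m)) {n m : ℕ} (hn : Odd n)
    (hm : Odd m) : FlowsCommute (flow F p q m) (flow F p q n) := by
  have kp : ∀ m, flow F p q m p = B p m := fun m => by simp [flow]
  have kq : ∀ m, flow F p q m q = F p q m := fun m => by simp [flow, hpq.symm]
  intro i
  by_cases h1 : i = p
  · subst h1
    rw [kp, kp, ev_B (kp m), ev_B (kp n), add_comm n m]
    ring
  by_cases h2 : i = q
  · subst h2
    rw [kq, kq]
    exact hF hn hm (kp m) (kq m) (kp n) (kq n)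
  · have ki : ∀ m, flow F p q m i = X (i, m) := fun m => by simp [flow, h1, h2]
    rw [ki, ki, ev_X, ev_X, ki, ki, Dx_iter, Dx_iter, add_comm]

theorem flow_integrable (F : Fin N → Fin N → ℕ → Jet N) {p q : Fin N} (hpq : p ≠ q)
    (hF : ∀ {K L : Fin N → Jet N} {n m : ℕ}, Odd n → Odd m → K p = B p m → K q = F p q m →
      L p = B p n → L q = F p q n → ev K (F p q n) = ev L (F p q m))
    (hform : ∀ n, 1 ≤ n → F p q n - X (q, n) ∈ Low N n) : Integrable (flow F p q 3) := by
  refine ⟨fun k => 2 * k + 3, fun k i => flow F p q (2 * k + 3) i - X (i, 2 * k + 3),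
    fun a b h => by simp only; omega, fun k i => ?_, fun k => ?_, fun k l => ?_⟩
  · by_cases h1 : i = p
    · subst h1
      simp only [flow, if_true]
      exact B_form i _ (by omega)
    by_cases h2 : i = q
    · subst h2
      simp only [flow, if_neg h1, if_true]
      exact hform _ (by omega)
    · simp only [flow, if_neg h1, if_neg h2, sub_self]
      exact Subalgebra.zero_mem _
  · simp only [add_sub_cancel]
    exact flow_comm F hpq hF ⟨k + 1, by ring⟩ ⟨1, by norm_num⟩
  · simp only [add_sub_cancel]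
    exact flow_comm F hpq hF ⟨l + 1, by ring⟩ ⟨k + 1, by ring⟩

/-! ### The third flows are systems of geometric type -/

theorem B_three (p : Fin N) :
    B p 3 = X (p, 3) + 3 * X (p, 1) * X (p, 2) + X (p, 1) ^ 3 := by
  have h0 : B p 0 = 1 := rfl
  have h2 : B p 2 = X (p, 2) + X (p, 1) ^ 2 := by
    rw [B, B_one, Dx_X]; ring
  rw [B, h2, map_add, Dx_X, Derivation.leibniz_pow, Dx_X]
  simp only [smul_eq_mul, nsmul_eq_mul]
  push_cast
  ring

theorem B_two (p : Fin N) : B p 2 = X (p, 2) + X (p, 1) ^ 2 := by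
  rw [B, B_one, Dx_X]; ring

theorem F1_three (p q : Fin N) :
    F1 p q 3 = X (q, 3) - 3 * X (p, 1) * X (q, 2) + 3 * X (p, 1) ^ 2 * X (q, 1) := by
  have c1 : Cc p q 1 = X (q, 1) := rfl
  have c2 : Cc p q 2 = X (q, 2) - X (p, 1) * X (q, 1) := by
    have h := Dx_Cc p q 1 le_rfl
    rw [c1, Dx_X] at h
    linear_combination -h
  have c3 : Cc p q 3 = X (q, 3) - X (p, 2) * X (q, 1) - 2 * X (p, 1) * X (q, 2)
      + X (p, 1) ^ 2 * X (q, 1) := by
    have h := Dx_Cc p q 2 (by norm_num)
    rw [c2, map_sub, Derivation.leibniz, Dx_X, Dx_X, Dx_X] at h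
    simp only [smul_eq_mul] at h
    linear_combination -h
  have b0 : B p 0 = 1 := rfl
  rw [F1, sum_range_succ, sum_range_succ, sum_range_succ, range_zero, sum_empty]
  norm_num
  rw [c1, c2, c3, B_one, B_two, b0]
  ring

theorem Dx_two : Dx N (2 : Jet N) = 0 := by
  rw [show (2 : Jet N) = 1 + 1 by norm_num, map_add, Derivation.map_one_eq_zero, add_zero]

theorem F2_three (p q : Fin N) :
    F2 p q 3 = X (q, 3) + 6 * X (p, 2) * X (q, 1) := by
  have w0 : W p q 0 = 0 := rfl
  have w1 := W_one p q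
  have w2 : W p q 2 = X (q, 2) + X (p, 2) * X (q, 0) + 2 * X (p, 1) * X (q, 1)
      + X (p, 1) ^ 2 * X (q, 0) := by
    have h := Dx_W p q 1
    rw [B_one, w1, map_add, Derivation.leibniz, Dx_X, Dx_X, Dx_X] at h
    simp only [smul_eq_mul] at h
    linear_combination -h
  have w3 : W p q 3 = X (q, 3) + 2 * X (p, 1) * X (q, 2) + 4 * X (p, 2) * X (q, 1)
      + 2 * X (p, 1) ^ 2 * X (q, 1) + (X (p, 3) + 3 * X (p, 1) * X (p, 2) + X (p, 1) ^ 3) *
        X (q, 0) := by
    have h := Dx_W p q 2
    rw [B_two, w1, w2, map_add, map_add, map_add, Derivation.leibniz, Derivation.leibniz,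
      Derivation.leibniz, Derivation.leibniz, Derivation.leibniz_pow, Dx_X, Dx_X, Dx_X, Dx_X,
      Dx_X, Dx_two] at h
    simp only [smul_eq_mul, nsmul_eq_mul] at h
    push_cast at h
    linear_combination -h
  have b0 : B p 0 = 1 := rfl
  rw [F2, sum_range_succ, sum_range_succ, sum_range_succ, range_zero, sum_empty]
  norm_num
  rw [w0, w1, w2, w3, B_one, B_two, B_three, b0]
  ring

/-- the bilinear expression `∑ a^i_{jk} x^j y^k` -/
noncomputable def bl (a : Fin N → Fin N → Fin N → ℝ) (x y : Fin N → Jet N) (i : Fin N) : Jet N :=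
  ∑ j, ∑ k, C (a i j k) * x j * y k

/-- the system with constant coefficients `α = a` and `β = 0` -/
theorem system_const (a : Fin N → Fin N → Fin N → ℝ) (i : Fin N) :
    system (fun i j k => C (a i j k)) (fun _ _ _ _ => 0) i = X (i, 3)
      + 3 * bl a (fun j => X (j, 1)) (fun j => X (j, 2)) i
      + 2 * bl a (fun j => X (j, 1)) (bl a (fun j => X (j, 1)) (fun j => X (j, 1))) i
      - bl a (bl a (fun j => X (j, 1)) (fun j => X (j, 1))) (fun j => X (j, 1)) i := by
  have e1 : ∀ j k m, emb (pderiv j (C (a i k m)) + 2 * ∑ r, C (a i j r) * C (a r k m)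
        - ∑ r, C (a i r j) * C (a r k m) + 0 : MvPolynomial (Fin N) ℝ) =
      2 * ∑ r, C (a i j r) * C (a r k m) - ∑ r, C (a i r j) * C (a r k m) := by
    intro j k m
    simp only [emb, pderiv_C, zero_add, add_zero, map_sub, map_mul, map_sum, map_ofNat, rename_C]
  have e2 : ∀ j k, emb (C (a i j k)) = (C (a i j k) : Jet N) := by
    intro j k
    simp [emb]
  have e3 : ∑ j, ∑ k, ∑ m, (2 * ∑ r, C (a i j r) * C (a r k m) - ∑ r, C (a i r j) * C (a r k m)) *
      X (j, 1) * X (k, 1) * X (m, 1) =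
      2 * (∑ j, ∑ k, ∑ m, ∑ r, C (a i j r) * C (a r k m) * X (j, 1) * X (k, 1) * X (m, 1)) -
      (∑ j, ∑ k, ∑ m, ∑ r, C (a i r j) * C (a r k m) * X (j, 1) * X (k, 1) * X (m, 1) : Jet N) := by
    simp only [mul_sum, sub_mul, sum_mul, sum_sub_distrib, mul_assoc]
  have e4 : bl a (fun j => X (j, 1)) (bl a (fun j => X (j, 1)) (fun j => X (j, 1))) i =
      ∑ j, ∑ k, ∑ m, ∑ r, C (a i j r) * C (a r k m) * X (j, 1) * X (k, 1) * X (m, 1) := by
    simp only [bl]
    refine sum_congr rfl fun j _ => ?_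
    simp only [mul_sum]
    rw [sum_comm]
    refine sum_congr rfl fun k _ => ?_
    rw [sum_comm]
    refine sum_congr rfl fun m _ => sum_congr rfl fun r _ => ?_
    ring
  have e5 : bl a (bl a (fun j => X (j, 1)) (fun j => X (j, 1))) (fun j => X (j, 1)) i =
      ∑ j, ∑ k, ∑ m, ∑ r, C (a i r j) * C (a r k m) * X (j, 1) * X (k, 1) * X (m, 1) := by
    simp only [bl]
    rw [sum_comm]
    refine sum_congr rfl fun j _ => ?_
    simp only [mul_sum, sum_mul]
    rw [sum_comm]
    refine sum_congr rfl fun k _ => ?_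
    rw [sum_comm]
    refine sum_congr rfl fun m _ => sum_congr rfl fun r _ => ?_
    ring
  rw [system]
  simp only [e1, e2, e3]
  rw [e4, e5, bl]
  ring

/-- the coefficients of the first system: `α^p_{pp} = 1`, `α^q_{pq} = -1` -/
noncomputable def a1 (p q : Fin N) (i j k : Fin N) : ℝ :=
  if i = p then (if j = p then (if k = p then 1 else 0) else 0)
  else if i = q then (if j = p then (if k = q then -1 else 0) else 0) else 0

/-- the coefficients of the second system: `α^p_{pp} = 1`, `α^q_{qp} = 2` -/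
noncomputable def a2 (p q : Fin N) (i j k : Fin N) : ℝ :=
  if i = p then (if j = p then (if k = p then 1 else 0) else 0)
  else if i = q then (if j = q then (if k = p then 2 else 0) else 0) else 0

theorem bl_a1 {p q : Fin N} (hpq : p ≠ q) (x y : Fin N → Jet N) (i : Fin N) :
    bl (a1 p q) x y i = if i = p then x p * y p else if i = q then -(x p * y q) else 0 := by
  by_cases h1 : i = p
  · subst h1
    simp [bl, a1, apply_ite C]
  by_cases h2 : i = q
  · subst h2
    simp [bl, a1, h1, apply_ite C]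
  · simp [bl, a1, h1, h2]

theorem bl_a2 {p q : Fin N} (hpq : p ≠ q) (x y : Fin N → Jet N) (i : Fin N) :
    bl (a2 p q) x y i = if i = p then x p * y p else if i = q then 2 * (x q * y p) else 0 := by
  by_cases h1 : i = p
  · subst h1
    simp [bl, a2, apply_ite C]
  by_cases h2 : i = q
  · subst h2
    simp only [bl, a2, h1, if_false, if_true, apply_ite C, map_zero, ite_mul, zero_mul,
      sum_ite_eq', mem_univ, sum_const_zero, Finset.sum_ite_irrel]
    rw [show (C 2 : Jet N) = 2 from map_ofNat C 2]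
    ring
  · simp [bl, a2, h1, h2]

theorem system_a1 {p q : Fin N} (hpq : p ≠ q) :
    system (fun i j k => C (a1 p q i j k)) (fun _ _ _ _ => 0) = flow F1 p q 3 := by
  funext i
  rw [system_const]
  simp only [bl_a1 hpq]
  by_cases h1 : i = p
  · subst h1
    simp only [if_true, flow, bl_a1 hpq]
    rw [B_three]
    ring
  by_cases h2 : i = q
  · subst h2
    simp only [if_true, if_neg h1, flow, bl_a1 hpq]
    rw [F1_three]
    ring
  · simp only [if_neg h1, if_neg h2, flow]
    ring

theorem system_a2 {p q : Fin N} (hpq : p ≠ q) :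
    system (fun i j k => C (a2 p q i j k)) (fun _ _ _ _ => 0) = flow F2 p q 3 := by
  funext i
  rw [system_const]
  simp only [bl_a2 hpq]
  by_cases h1 : i = p
  · subst h1
    simp only [if_true, flow, bl_a2 hpq]
    rw [B_three]
    ring
  by_cases h2 : i = q
  · subst h2
    simp only [if_true, if_neg h1, flow, bl_a2 hpq]
    rw [F2_three]
    ring
  · simp only [if_neg h1, if_neg h2, flow]
    ring

theorem int_a1 {p q : Fin N} (hpq : p ≠ q) :
    Integrable (system (fun i j k => C (a1 p q i j k)) (fun _ _ _ _ => 0)) := by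
  rw [system_a1 hpq]
  exact flow_integrable F1 hpq comm_F1 (F1_form p q)

theorem int_a2 {p q : Fin N} (hpq : p ≠ q) :
    Integrable (system (fun i j k => C (a2 p q i j k)) (fun _ _ _ _ => 0)) := by
  rw [system_a2 hpq]
  exact flow_integrable F2 hpq comm_F2 (F2_form p q)

end Pool.Agent.KS6_75.TC
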